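import Pool.Agent.Helper93.WC.St

/-!
# Project WC (MP_e74dc5_nt), module BAD: bad primes give vectors in the lattices, general level
-/

set_option autoImplicit false

open Polynomial Helper62.Weber Pool.Agent.Helper93.WC

namespace Pool.Agent.Helper47.WC

theorem cBAD : BAD := by
  intro n l r hn hlp hl hr1 hrn hlev hb
  have : Fact l.Prime := ⟨hlp⟩
  have hI := not_le hn hl hb
  have h1 : ¬ (Il n hn l).comap (expand ℤ (2 ^ (n - r)) : ℤ[X] →ₐ[ℤ] ℤ[X]) ≤ J l (r - 1) := by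
    have e1 : r - 1 + (n - r) = n - 1 := by omega
    refine descent hl (r - 1) (fun e' he' => hlev e' (by omega)) (n - r) (C_mem_Il hn l) ?_ ?_
    · rw [e1]; exact X_mem_Il hn l
    · rw [e1]; exact hI
  have h2 : X ^ 2 ^ (r - 1) + 1 ∈
      (Il n hn l).comap (expand ℤ (2 ^ (n - r)) : ℤ[X] →ₐ[ℤ] ℤ[X]) := by
    rw [Ideal.mem_comap]
    have e2 : expand ℤ (2 ^ (n - r)) (X ^ 2 ^ (r - 1) + 1 : ℤ[X]) = X ^ 2 ^ (n - 1) + 1 := by
      rw [map_add, map_pow, expand_X, map_one, ← pow_mul, ← pow_add]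
      congr 3
      omega
    change expand ℤ (2 ^ (n - r)) (X ^ 2 ^ (r - 1) + 1 : ℤ[X]) ∈ Il n hn l
    rw [e2]
    exact X_mem_Il hn l
  obtain ⟨a, haI, hdeg, hnd⟩ := small h2 h1
  refine ⟨fun k => a.coeff k, ?_, ?_⟩
  · rw [mem_Lam, Phi_apply, pl_of_poly a hdeg]
    exact haI
  · intro hall
    apply hnd
    rw [C_dvd_iff_dvd_coeff]
    intro i
    by_cases hi : i < 2 ^ (r - 1)
    · exact hall ⟨i, hi⟩
    · rw [coeff_eq_zero_of_natDegree_lt (lt_of_lt_of_le hdeg (not_lt.1 hi))]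
      exact dvd_zero _

end Pool.Agent.Helper47.WC
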